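import Mathlib
import Pool.Agent.Helper384.ApdFinal
import Pool.Agent.Helper384.ApdCompact

namespace Pool.Agent.Results.MP_02f3ba_co.SqrtPolylog

open Finset

/-- `h` is admissible: some sign sequence `f` on the positive integers has every sum over a finite
arithmetic progression `a, a + d, ..., a + (N - 1) d` of positive integers with common
difference `d` bounded in absolute value by `h d`, for every `d ≥ 1`. -/
def Admissible (h : ℕ → ℝ) : Prop :=
  ∃ f : ℕ → ℤ, (∀ n, 1 ≤ n → f n = 1 ∨ f n = -1) ∧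
    ∀ d, 1 ≤ d → ∀ a, 1 ≤ a → ∀ N : ℕ, |((∑ i ∈ range N, f (a + i * d) : ℤ) : ℝ)| ≤ h d

/-- the running maximum of `h` over `1 ≤ d ≤ D` -/
noncomputable def runMax (h : ℕ → ℝ) (D : ℕ) : ℝ := sSup (h '' Set.Icc 1 D)

theorem result : ∃ C : ℝ, ∃ h : ℕ → ℝ, Admissible h ∧
    (∀ d : ℕ, 1 ≤ d → h d ≤ C * √(d : ℝ) * (1 + Real.log d) ^ 5) ∧
    ∀ D : ℕ, 1 ≤ D → runMax h D ≤ C * √(D : ℝ) * (1 + Real.log D) ^ 5 := by
  obtain ⟨C0, hC0⟩ := Pool.Agent.Helper384.ApdSum.sum_bound 100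
  set C1 : ℝ := 3 * (100 : ℕ) * max C0 0 with hC1
  have hC1nn : 0 ≤ C1 := by positivity
  set g : ℕ → ℝ := fun d => C1 * √(d : ℝ) * (1 + Real.log d) ^ 5 with hg
  have hfin : ∀ L : ℕ, ∃ f : ℕ → Bool, ∀ d, 1 ≤ d → d < 2 ^ L → ∀ n < L,
      |∑ k ∈ range (n / d + 1), Pool.Agent.Helper384.ApdCompact.sg (f (n - k * d))| ≤ g d := by
    intro L
    obtain ⟨y, hy⟩ := Pool.Agent.Helper384.ApdFinal.finite_level (u := 100) le_rfl L
    refine ⟨y, ?_⟩
    intro d hd hdL n hn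
    set l0 := Pool.Agent.Helper384.ApdFinal.lev d with hl0
    have hl1 : 1 ≤ l0 := Pool.Agent.Helper384.ApdFinal.lev_pos d
    have hsp := Pool.Agent.Helper384.ApdFinal.lev_spec hd
    have hL0 : l0 ≤ L := Pool.Agent.Helper384.ApdFinal.lev_le hd hdL
    have h1 := hy d l0 hd hl1 hsp.1 hsp.2 hL0 n hn
    have h2 := hC0 d l0 L hl1 hsp.1 hsp.2
    have hlog : 0 ≤ Real.log d := Real.log_natCast_nonneg d
    have h3 : C0 * √(d : ℝ) * (1 + Real.log d) ^ 5 ≤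
        max C0 0 * √(d : ℝ) * (1 + Real.log d) ^ 5 := by
      have := le_max_left C0 0
      gcongr
    have h4 := h2.trans h3
    refine h1.trans ?_
    calc _ ≤ 3 * ((100 : ℕ) : ℝ) * (max C0 0 * √(d : ℝ) * (1 + Real.log d) ^ 5) :=
          mul_le_mul_of_nonneg_left h4 (by positivity)
      _ = g d := by simp only [hg, hC1]; ring
  obtain ⟨f, hf1, hf2⟩ := Pool.Agent.Helper384.ApdCompact.compact_final g hfin
  have hmono : ∀ d D : ℕ, 1 ≤ d → d ≤ D → 2 * g d ≤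
      2 * C1 * √(D : ℝ) * (1 + Real.log D) ^ 5 := by
    intro d D hd hdD
    have hdr : (0 : ℝ) < d := by exact_mod_cast hd
    have hdD' : (d : ℝ) ≤ D := by exact_mod_cast hdD
    have hlog : 0 ≤ Real.log d := Real.log_natCast_nonneg d
    have hlog2 : Real.log d ≤ Real.log D := Real.log_le_log hdr hdD'
    have hs : √(d : ℝ) ≤ √(D : ℝ) := Real.sqrt_le_sqrt hdD'
    have : 2 * g d = 2 * C1 * √(d : ℝ) * (1 + Real.log d) ^ 5 := by simp only [hg]; ring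
    rw [this]
    gcongr
  refine ⟨2 * C1, fun d => 2 * g d, ⟨f, fun n _ => hf1 n, hf2⟩, ?_, ?_⟩
  · intro d hd
    exact hmono d d hd le_rfl
  · intro D hD
    unfold runMax
    apply csSup_le
    · exact ⟨2 * g 1, 1, ⟨le_rfl, hD⟩, rfl⟩
    · rintro x ⟨d, ⟨hd1, hd2⟩, rfl⟩
      exact hmono d D hd1 hd2

end Pool.Agent.Results.MP_02f3ba_co.SqrtPolylog
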